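import Pool.Agent.P.MP_56563a_an.D1.Main

/-!
The optimal number of elementary symplectic factors on one-dimensional Stein spaces is six.
-/

set_option autoImplicit false

namespace Pool.Agent.Results.MP_56563a_an.DimOne

open Pool.Agent.P.MP_56563a_an.D1

/-- `N(1) = 6`: six is the least `N` such that on every reduced Stein space of dimension one every
null-homotopic holomorphic map to `Sp₄(ℂ)` is a product `M₁(G₁) ⋯ M_N(G_N)`. -/
theorem result : IsLeast {N : ℕ | Suffices 1 N} 6 := ⟨q_UP, q_LOW⟩

end Pool.Agent.Results.MP_56563a_an.DimOne
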