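import Pool.Agent.P.MP_56563a_an.Test

/-!
A linear lower bound for the number of elementary symplectic factors on `ℂ^d`.
-/

set_option autoImplicit false

namespace Pool.Agent.Results.MP_56563a_an.LinearLower

open Matrix
open Pool.Agent.P.MP_56563a_an

/-- The symmetric matrix `U(x)` with entries `x₁, x₂, x₃`. -/
def U (x : Fin 3 → ℂ) : Matrix (Fin 2) (Fin 2) ℂ := !![x 0, x 1; x 1, x 2]

/-- The elementary symplectic matrix `M_k(x)`: lower type for odd `k`, upper type for even `k`. -/
def M (k : ℕ) (x : Fin 3 → ℂ) : Matrix (Fin 2 ⊕ Fin 2) (Fin 2 ⊕ Fin 2) ℂ :=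
  if k % 2 = 1 then fromBlocks 1 0 (U x) 1 else fromBlocks 1 (U x) 0 1

theorem U_symm (x : Fin 3 → ℂ) : (U x).IsSymm := by
  ext i j
  fin_cases i <;> fin_cases j <;> rfl

theorem U_cont : Continuous U := by
  refine continuous_matrix fun i j => ?_
  fin_cases i <;> fin_cases j <;> simp [U] <;> fun_prop

/-- For every `d` some null-homotopic holomorphic map `ℂ^d → Sp₄(ℂ)` is not a product
`M₁(G₁) ⋯ M_N(G_N)` with `2 N ≤ d + 4`, even with merely continuous `G₁, …, G_N`. -/
theorem result (d : ℕ) :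
    ∃ f : C(Fin d → ℂ, symplecticGroup (Fin 2) ℂ),
      (∀ i j, Differentiable ℂ fun x => (f x).1 i j) ∧ f.Nullhomotopic ∧
      ∀ N : ℕ, 2 * N ≤ d + 4 →
        ¬ ∃ G : Fin N → (Fin d → ℂ) → Fin 3 → ℂ, (∀ k, Continuous (G k)) ∧
          ∀ x, (f x).1 = (List.ofFn fun k : Fin N => M (k.1 + 1) (G k x)).prod := by
  obtain ⟨m, hm⟩ : ∃ m, m = d / 2 + 2 + 2 * d := ⟨_, rfl⟩
  let g : (Fin d → ℂ) → symplecticGroup (Fin 2) ℂ := fun x =>
    ⟨Q (m + 1) (Y m x) m, Q_mem _ (Y_symm m x) m⟩
  have hdiff : ∀ i j, Differentiable ℂ fun x => ((g x)⁻¹).1 i j := fun i j => by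
    simp only [SymplecticGroup.coe_inv, mul_apply, transpose_apply]
    exact Differentiable.fun_sum fun a _ => (Differentiable.fun_sum fun b _ =>
      (QY_diff _ m m a b).const_mul _).mul_const _
  let F : C(Fin d → ℂ, symplecticGroup (Fin 2) ℂ) :=
    ⟨fun x => (g x)⁻¹, Continuous.subtype_mk
      (continuous_matrix fun i j => (hdiff i j).continuous) fun x => ((g x)⁻¹).2⟩
  refine ⟨F, hdiff, (id_nullhomotopic _).comp_right F, ?_⟩
  rintro N hN ⟨G, hG, hf⟩
  let S : (Fin d → ℂ) → ℕ → Matrix (Fin 2) (Fin 2) ℂ := fun x k =>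
    if k < m then Y m x k else if h : k - m < N then U (G ⟨k - m, h⟩ x) else 0
  have hY : ∀ x, ∀ k < m, S x k = Y m x k := fun x k hk => if_pos hk
  have h := bound (m := m) (d := d) (m + 1) (m + d / 2) (by omega) (by omega) (by omega)
    (by omega) S (fun k => ?_) (fun x k => ?_) hY fun x => ?_
  · omega
  · simp only [S]
    split_ifs
    · exact continuous_matrix fun a b => (Y_diff m k a b).continuous
    · exact U_cont.comp (hG _)
    · exact continuous_const
  · simp only [S]
    split_ifs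
    · exact Y_symm m x k
    · exact U_symm _
    · exact isSymm_zero
  · rw [show m + d / 2 + 2 = m + N + (d / 2 + 2 - N) by omega, Q_pad _ _ _ fun k hk => ?_,
      Q_add _ _ (by omega), Q_congr _ m (hY x)]
    · have e : (fun k : Fin N => E (k.1 + 1) (S x (m + k))) = fun k => M (k.1 + 1) (G k x) := by
        funext k
        simp [S, E, M]
      rw [e, ← hf x]
      exact congrArg Subtype.val (mul_inv_cancel (g x))
    · simp only [S]
      rw [if_neg (by omega), dif_neg (by omega)]

end Pool.Agent.Results.MP_56563a_an.LinearLower
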