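import Mathlib

/-!
Five elementary symplectic factors do not suffice on Stein spaces of positive dimension.
-/

set_option autoImplicit false

namespace Pool.Agent.Results.MP_56563a_an.LowerSix

open Matrix

/-- The symmetric matrix `U(x)` with entries `x₁, x₂, x₃`. -/
def U (x : Fin 3 → ℂ) : Matrix (Fin 2) (Fin 2) ℂ := !![x 0, x 1; x 1, x 2]

/-- The elementary symplectic matrix `M_k(x)`: lower type for odd `k`, upper type for even `k`. -/
def M (k : ℕ) (x : Fin 3 → ℂ) : Matrix (Fin 2 ⊕ Fin 2) (Fin 2 ⊕ Fin 2) ℂ :=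
  if k % 2 = 1 then fromBlocks 1 0 (U x) 1 else fromBlocks 1 (U x) 0 1

/-- The polynomial map used as the example. -/
noncomputable def ex (z w : ℂ) : Matrix (Fin 2 ⊕ Fin 2) (Fin 2 ⊕ Fin 2) ℂ :=
  fromBlocks !![2 + z * w, -z ^ 2; w ^ 2, 2 - z * w] 0 0
    !![1 / 2 - z * w / 4, -w ^ 2 / 4; z ^ 2 / 4, 1 / 2 + z * w / 4]

theorem ex_mem (z w : ℂ) : ex z w ∈ symplecticGroup (Fin 2) ℂ := by
  rw [SymplecticGroup.mem_iff]
  ext i j
  rcases i with i | i <;> rcases j with j | j <;> fin_cases i <;> fin_cases j <;>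
    simp only [ex, J, Matrix.mul_apply, Fintype.sum_sum_type, Fin.sum_univ_two,
      Matrix.transpose_apply, fromBlocks_apply₁₁, fromBlocks_apply₁₂, fromBlocks_apply₂₁,
      fromBlocks_apply₂₂] <;> simp <;> ring

theorem ex_diff {E : Type} [NormedAddCommGroup E] [NormedSpace ℂ E] {u v : E → ℂ}
    (hu : Differentiable ℂ u) (hv : Differentiable ℂ v) (i j : Fin 2 ⊕ Fin 2) :
    Differentiable ℂ (fun z => ex (u z) (v z) i j) := by
  rcases i with i | i <;> rcases j with j | j <;> fin_cases i <;> fin_cases j <;>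
    simp [ex] <;> fun_prop

theorem key {z w : ℂ} {a b c d e : Fin 3 → ℂ}
    (h : ex z w = M 1 a * (M 2 b * (M 3 c * (M 4 d * M 5 e)))) :
    c 0 * z ^ 2 + 2 * c 1 * z * w + c 2 * w ^ 2 = 0 ∧ b 0 * c 0 + b 1 * c 1 = 1 + z * w := by
  have h1 : ex z w = fromBlocks 1 0 (U a) 1 * (fromBlocks 1 (U b) 0 1 * (fromBlocks 1 0 (U c) 1 *
      (fromBlocks 1 (U d) 0 1 * fromBlocks 1 0 (U e) 1))) := by
    simpa [M] using h
  simp only [ex, fromBlocks_multiply, Matrix.one_mul, Matrix.mul_one, Matrix.zero_mul,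
    Matrix.mul_zero, add_zero, zero_add] at h1
  obtain ⟨hA, hB, -, -⟩ := fromBlocks_inj.1 h1
  have hA' : (!![2 + z * w, -z ^ 2; w ^ 2, 2 - z * w] : Matrix (Fin 2) (Fin 2) ℂ) =
      1 + U b * U c := by
    have : 1 + U d * U e + U b * (U c * (1 + U d * U e) + U e) =
        1 + U b * U c + (U d + U b * (U c * U d + 1)) * U e := by noncomm_ring
    rw [hA, this, ← hB]
    simp
  have e00 := congrFun (congrFun hA' 0) 0
  have e01 := congrFun (congrFun hA' 0) 1
  have e10 := congrFun (congrFun hA' 1) 0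
  have e11 := congrFun (congrFun hA' 1) 1
  simp [U] at e00 e01 e10 e11
  constructor
  · linear_combination (-c 0) * e01 + c 1 * e00 - c 1 * e11 + c 2 * e10
  · linear_combination -e00

/-- For `X` the hypersurface `z₀ z₁ (z₀ - z₁) = 0` in `ℂ^(d+2)` or all of `ℂ^(d+2)`, some
null-homotopic holomorphic map `X → Sp₄(ℂ)` is not a product `M₁(G₁) ⋯ M₅(G₅)`, even with
merely continuous `G₁, …, G₅`. -/
theorem result (d : ℕ) (X : Set (Fin (d + 2) → ℂ))
    (hX : X = {z | z 0 * z 1 * (z 0 - z 1) = 0} ∨ X = Set.univ) :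
    ∃ f : C(X, symplecticGroup (Fin 2) ℂ),
      (∃ F : (Fin (d + 2) → ℂ) → Matrix (Fin 2 ⊕ Fin 2) (Fin 2 ⊕ Fin 2) ℂ,
        (∀ i j, Differentiable ℂ (fun z => F z i j)) ∧ ∀ x : X, (f x).1 = F x.1) ∧
      f.Nullhomotopic ∧
      ¬ ∃ G : Fin 5 → X → Fin 3 → ℂ, (∀ k, Continuous (G k)) ∧
        ∀ x : X, (f x).1 = (List.ofFn fun k : Fin 5 => M (k.1 + 1) (G k x)).prod := by
  have hdiff : ∀ i j, Differentiable ℂ (fun z : Fin (d + 2) → ℂ => ex (z 0) (z 1) i j) :=
    ex_diff (by fun_prop) (by fun_prop)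
  let F : C(Fin (d + 2) → ℂ, symplecticGroup (Fin 2) ℂ) :=
    ⟨fun z => ⟨ex (z 0) (z 1), ex_mem _ _⟩, Continuous.subtype_mk
      (continuous_matrix fun i j => (hdiff i j).continuous) _⟩
  refine ⟨F.comp ⟨Subtype.val, continuous_subtype_val⟩, ⟨fun z => ex (z 0) (z 1), hdiff,
    fun _ => rfl⟩, ?_, ?_⟩
  · exact ((id_nullhomotopic _).comp_right F).comp_left _
  rintro ⟨G, hG, hf⟩
  have hk : ∀ x : X, G 2 x 0 * (x.1 0) ^ 2 + 2 * G 2 x 1 * (x.1 0) * (x.1 1) +
      G 2 x 2 * (x.1 1) ^ 2 = 0 ∧ G 1 x 0 * G 2 x 0 + G 1 x 1 * G 2 x 1 = 1 + x.1 0 * x.1 1 := by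
    intro x
    apply key (a := G 0 x) (d := G 3 x) (e := G 4 x)
    have := hf x
    simpa [F, List.ofFn_succ] using this
  have h0 : (0 : Fin (d + 2) → ℂ) ∈ X := by
    rcases hX with rfl | rfl <;> simp
  -- along a line through the origin with direction `(p, q)`
  have line : ∀ p q : ℂ, p * q * (p - q) = 0 →
      G 2 ⟨0, h0⟩ 0 * p ^ 2 + 2 * G 2 ⟨0, h0⟩ 1 * p * q + G 2 ⟨0, h0⟩ 2 * q ^ 2 = 0 := by
    intro p q hpq
    let v : Fin (d + 2) → ℂ := Fin.cons p (fun _ => q)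
    have v0 : v 0 = p := rfl
    have v1 : v 1 = q := rfl
    have hmem : ∀ t : ℂ, t • v ∈ X := by
      intro t
      rcases hX with rfl | rfl
      · simp only [Set.mem_ofPred_eq, Pi.smul_apply, v0, v1, smul_eq_mul]
        linear_combination t ^ 3 * hpq
      · trivial
    let γ : ℂ → X := fun t => ⟨t • v, hmem t⟩
    have hγ : Continuous γ := Continuous.subtype_mk (by fun_prop) _
    have hc : ∀ i, Continuous (fun t => G 2 (γ t) i) := fun i =>
      (continuous_apply i).comp ((hG 2).comp hγ)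
    have hcont : Continuous (fun t => G 2 (γ t) 0 * p ^ 2 + 2 * G 2 (γ t) 1 * p * q +
        G 2 (γ t) 2 * q ^ 2) := by
      have := hc 0
      have := hc 1
      have := hc 2
      fun_prop
    have hz := Continuous.ext_on (dense_compl_singleton (0 : ℂ)) hcont
      (continuous_const (y := (0 : ℂ))) (by
        intro t ht
        have h1 := (hk (γ t)).1
        simp only [γ, Pi.smul_apply, v0, v1, smul_eq_mul] at h1
        have ht2 : t ^ 2 ≠ 0 := pow_ne_zero 2 ht
        apply mul_left_cancel₀ ht2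
        simp only [γ]
        linear_combination h1)
    have := congrFun hz 0
    have e : γ 0 = ⟨0, h0⟩ := Subtype.ext (by simp [γ])
    rwa [e] at this
  have a1 := line 1 0 (by simp)
  have a2 := line 0 1 (by simp)
  have a3 := line 1 1 (by simp)
  have a4 := (hk ⟨0, h0⟩).2
  simp only [Pi.zero_apply, mul_zero, add_zero] at a4
  have c0 : G 2 ⟨0, h0⟩ 0 = 0 := by linear_combination a1
  have c1 : G 2 ⟨0, h0⟩ 1 = 0 := by linear_combination (a3 - a1 - a2) / 2
  rw [c0, c1] at a4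
  simp at a4

end Pool.Agent.Results.MP_56563a_an.LowerSix
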