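import Mathlib

/-!
Six elementary symplectic factors suffice over every commutative ring of Bass stable rank one.
-/

set_option autoImplicit false

namespace Pool.Agent.Results.MP_56563a_an.StableRankOneSix

open Matrix

/-- The symmetric matrix `U(x)` with entries `x₁, x₂, x₃`. -/
def U {R : Type*} (x : Fin 3 → R) : Matrix (Fin 2) (Fin 2) R := !![x 0, x 1; x 1, x 2]

/-- The elementary symplectic matrix `M_k(x)`: lower type for odd `k`, upper type for even `k`. -/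
def M {R : Type*} [CommRing R] (k : ℕ) (x : Fin 3 → R) :
    Matrix (Fin 2 ⊕ Fin 2) (Fin 2 ⊕ Fin 2) R :=
  if k % 2 = 1 then fromBlocks 1 0 (U x) 1 else fromBlocks 1 (U x) 0 1

variable {R : Type*} [CommRing R]

/-- Lower elementary block matrix. -/
def Lo (x : Matrix (Fin 2) (Fin 2) R) : Matrix (Fin 2 ⊕ Fin 2) (Fin 2 ⊕ Fin 2) R :=
  fromBlocks 1 0 x 1

/-- Upper elementary block matrix. -/
def Up (x : Matrix (Fin 2) (Fin 2) R) : Matrix (Fin 2 ⊕ Fin 2) (Fin 2 ⊕ Fin 2) R :=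
  fromBlocks 1 x 0 1

theorem Lo_mem {x : Matrix (Fin 2) (Fin 2) R} (h : xᵀ = x) : Lo x ∈ symplecticGroup (Fin 2) R := by
  rw [Lo, SymplecticGroup.fromBlocks_mem_iff]
  simp [h]

theorem Up_mem {x : Matrix (Fin 2) (Fin 2) R} (h : xᵀ = x) : Up x ∈ symplecticGroup (Fin 2) R := by
  rw [Up, SymplecticGroup.fromBlocks_mem_iff]
  simp [h]

theorem Lo_mul_neg (x : Matrix (Fin 2) (Fin 2) R) : Lo x * Lo (-x) = 1 := by
  simp [Lo, fromBlocks_multiply]

theorem Lo_neg_mul (x : Matrix (Fin 2) (Fin 2) R) : Lo (-x) * Lo x = 1 := by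
  simp [Lo, fromBlocks_multiply]

theorem Up_mul_neg (x : Matrix (Fin 2) (Fin 2) R) : Up x * Up (-x) = 1 := by
  simp [Up, fromBlocks_multiply]

theorem exists_U {x : Matrix (Fin 2) (Fin 2) R} (h : xᵀ = x) : ∃ y : Fin 3 → R, U y = x := by
  refine ⟨![x 0 0, x 0 1, x 1 1], ?_⟩
  have h10 : x 0 1 = x 1 0 := congrFun (congrFun h 1) 0
  ext i j
  fin_cases i <;> fin_cases j <;> simp [U, h10]

theorem rel_T {A B C D : Matrix (Fin 2) (Fin 2) R}
    (h : fromBlocks A B C D ∈ symplecticGroup (Fin 2) R) :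
    A * Bᵀ = B * Aᵀ ∧ C * Dᵀ = D * Cᵀ ∧ A * Dᵀ - B * Cᵀ = 1 := by
  have h' := SymplecticGroup.transpose_mem h
  rw [fromBlocks_transpose, SymplecticGroup.fromBlocks_mem_iff] at h'
  simpa using h'

/-- Three factors when the lower left block is symmetric and invertible. -/
theorem three {A B C D : Matrix (Fin 2) (Fin 2) R}
    (h : fromBlocks A B C D ∈ symplecticGroup (Fin 2) R) (hC : Cᵀ = C) (hu : IsUnit C.det) :
    ∃ b d : Matrix (Fin 2) (Fin 2) R, bᵀ = b ∧ dᵀ = d ∧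
      fromBlocks A B C D = Up b * Lo C * Up d := by
  obtain ⟨h1, -, h3⟩ := SymplecticGroup.fromBlocks_mem_iff.1 h
  obtain ⟨-, h5, -⟩ := rel_T h
  rw [hC] at h1 h3 h5
  have i1 : C * C⁻¹ = 1 := mul_nonsing_inv C hu
  have i2 : C⁻¹ * C = 1 := nonsing_inv_mul C hu
  have i3 : (C⁻¹)ᵀ = C⁻¹ := by rw [transpose_nonsing_inv, hC]
  set E := C⁻¹
  have j1 : E * Aᵀ = A * E := by
    calc E * Aᵀ = E * (Aᵀ * C) * E := by rw [Matrix.mul_assoc, Matrix.mul_assoc, i1, Matrix.mul_one]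
      _ = A * E := by rw [h1, ← Matrix.mul_assoc, i2, Matrix.one_mul]
  have j2 : Dᵀ * E = E * D := by
    calc Dᵀ * E = E * (C * Dᵀ) * E := by rw [← Matrix.mul_assoc, i2, Matrix.one_mul]
      _ = E * D := by rw [h5, Matrix.mul_assoc, Matrix.mul_assoc, i1, Matrix.mul_one]
  have j3 : B = A * E * D - E := by
    calc B = E * (C * B) := by rw [← Matrix.mul_assoc, i2, Matrix.one_mul]
      _ = E * (Aᵀ * D - 1) := by rw [← h3]; congr 1; abel
      _ = A * E * D - E := by rw [Matrix.mul_sub, ← Matrix.mul_assoc, j1, Matrix.mul_one]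
  refine ⟨A * E - E, E * D - E, ?_, ?_, ?_⟩
  · rw [transpose_sub, transpose_mul, i3, j1]
  · rw [transpose_sub, transpose_mul, i3, j2]
  · have k1 : (A * E - E) * C = A - 1 := by
      rw [Matrix.sub_mul, Matrix.mul_assoc, i2, Matrix.mul_one]
    have k2 : C * (E * D - E) = D - 1 := by
      rw [Matrix.mul_sub, ← Matrix.mul_assoc, i1, Matrix.one_mul]
    simp only [Up, Lo, fromBlocks_multiply, Matrix.one_mul, Matrix.mul_one, Matrix.zero_mul,
      Matrix.mul_zero, add_zero, zero_add, k1, k2]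
    rw [fromBlocks_inj]
    refine ⟨by abel, ?_, rfl, by abel⟩
    rw [j3]
    noncomm_ring

variable (sr : ∀ a b : R, IsCoprime a b → ∃ t : R, IsUnit (a + b * t))
include sr

/-- Five factors when the upper right block is invertible. -/
theorem five {A B C D : Matrix (Fin 2) (Fin 2) R}
    (h : fromBlocks A B C D ∈ symplecticGroup (Fin 2) R) (hu : IsUnit B.det) :
    ∃ a b c d e : Matrix (Fin 2) (Fin 2) R, aᵀ = a ∧ bᵀ = b ∧ cᵀ = c ∧ dᵀ = d ∧ eᵀ = e ∧
      fromBlocks A B C D = Lo a * (Up b * Lo c * Up d) * Lo e := by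
  obtain ⟨-, h2, h3⟩ := SymplecticGroup.fromBlocks_mem_iff.1 h
  obtain ⟨h4, -, -⟩ := rel_T h
  have i1 : B * B⁻¹ = 1 := mul_nonsing_inv B hu
  have i2 : B⁻¹ * B = 1 := nonsing_inv_mul B hu
  set E := B⁻¹
  have i3 : Eᵀ * Bᵀ = 1 := by rw [← transpose_mul, i1, transpose_one]
  have i4 : Bᵀ * Eᵀ = 1 := by rw [← transpose_mul, i2, transpose_one]
  have j1 : (D * E)ᵀ = D * E := by
    calc (D * E)ᵀ = Eᵀ * (Dᵀ * B) * E := by
          rw [transpose_mul, Matrix.mul_assoc, Matrix.mul_assoc, i1, Matrix.mul_one]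
      _ = D * E := by rw [← h2, ← Matrix.mul_assoc, i3, Matrix.one_mul]
  have j2 : (E * A)ᵀ = E * A := by
    calc (E * A)ᵀ = E * (B * Aᵀ) * Eᵀ := by
          rw [transpose_mul, ← Matrix.mul_assoc, i2, Matrix.one_mul]
      _ = E * A := by rw [← h4, Matrix.mul_assoc, Matrix.mul_assoc, i4, Matrix.mul_one]
  have j3 : C = D * E * A - Eᵀ := by
    have : Cᵀ = Aᵀ * (D * E) - E := by
      calc Cᵀ = (Cᵀ * B) * E := by rw [Matrix.mul_assoc, i1, Matrix.mul_one]
        _ = (Aᵀ * D - 1) * E := by rw [← h3]; congr 1; abel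
        _ = Aᵀ * (D * E) - E := by rw [Matrix.sub_mul, Matrix.mul_assoc, Matrix.one_mul]
    have h' := congrArg transpose this
    rwa [transpose_transpose, transpose_sub, transpose_mul, j1, transpose_transpose] at h'
  have e00 : B 0 0 * E 0 0 + B 0 1 * E 1 0 = 1 := by
    have := congrFun (congrFun i1 0) 0
    simpa [Matrix.mul_apply, Fin.sum_univ_two] using this
  have e11 : B 1 0 * E 0 1 + B 1 1 * E 1 1 = 1 := by
    have := congrFun (congrFun i1 1) 1
    simpa [Matrix.mul_apply, Fin.sum_univ_two] using this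
  have hcop : IsCoprime (E 0 1 ^ 2) (E 1 1) := IsCoprime.pow_left ⟨B 1 0, B 1 1, e11⟩
  obtain ⟨t, ht⟩ := sr _ _ hcop
  let r1 : R := t + E 0 0
  let r2 : R := E 1 0 - E 0 1
  let s : R := B 0 0 * r1 + B 0 1 * r2
  let a' : Matrix (Fin 2) (Fin 2) R := !![1, 0; 0, 0]
  let e' : Matrix (Fin 2) (Fin 2) R :=
    !![2 * E 0 0 * r1 - s * E 0 0 ^ 2, E 0 0 * r2 + E 1 0 * r1 - s * E 0 0 * E 1 0;
       E 0 0 * r2 + E 1 0 * r1 - s * E 0 0 * E 1 0, 2 * E 1 0 * r2 - s * E 1 0 ^ 2]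
  have ha' : a'ᵀ = a' := by ext i j; fin_cases i <;> fin_cases j <;> rfl
  have he' : e'ᵀ = e' := by ext i j; fin_cases i <;> fin_cases j <;> rfl
  let c : Matrix (Fin 2) (Fin 2) R := !![t, -E 0 1; -E 0 1, -E 1 1]
  have hc : cᵀ = c := by ext i j; fin_cases i <;> fin_cases j <;> rfl
  have hcdet : IsUnit c.det := by
    have : c.det = -(E 0 1 ^ 2 + E 1 1 * t) := by simp [c, det_fin_two]; ring
    rw [this]; exact ht.neg
  have hc' : a' * B * e' - Eᵀ = c := by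
    ext i j
    fin_cases i <;> fin_cases j <;>
      simp only [a', e', c, Matrix.sub_apply, Matrix.mul_apply, Fin.sum_univ_two,
        Matrix.transpose_apply] <;> simp
    · simp only [s, r1, r2]
      linear_combination (t + E 0 0 - (B 0 0 * (t + E 0 0) + B 0 1 * (E 1 0 - E 0 1)) * E 0 0) * e00
    · simp only [s, r1, r2]
      linear_combination
        (E 1 0 - E 0 1 - (B 0 0 * (t + E 0 0) + B 0 1 * (E 1 0 - E 0 1)) * E 1 0) * e00
  have ha : (D * E + a')ᵀ = D * E + a' := by rw [transpose_add, j1, ha']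
  have he : (E * A + e')ᵀ = E * A + e' := by rw [transpose_add, j2, he']
  have hmem : Lo (-(D * E + a')) * fromBlocks A B C D * Lo (-(E * A + e')) ∈
      symplecticGroup (Fin 2) R :=
    Submonoid.mul_mem _ (Submonoid.mul_mem _ (Lo_mem (by rw [transpose_neg, ha])) h)
      (Lo_mem (by rw [transpose_neg, he]))
  have hblock : Lo (-(D * E + a')) * fromBlocks A B C D * Lo (-(E * A + e')) =
      fromBlocks (-(B * e')) B c (-(a' * B)) := by
    have k1 : B * (E * A) = A := by rw [← Matrix.mul_assoc, i1, Matrix.one_mul]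
    have k2 : D * E * B = D := by rw [Matrix.mul_assoc, i2, Matrix.mul_one]
    have k3 : -(D * E + a') * B + D = -(a' * B) := by
      rw [Matrix.neg_mul, Matrix.add_mul, k2]; abel
    simp only [Lo, fromBlocks_multiply, Matrix.one_mul, Matrix.mul_one, Matrix.zero_mul,
      Matrix.mul_zero, add_zero, zero_add, k3]
    rw [fromBlocks_inj]
    refine ⟨?_, rfl, ?_, rfl⟩
    · rw [Matrix.mul_neg, Matrix.mul_add, k1]; abel
    · rw [← hc', j3]
      have : -(a' * B) * -(E * A + e') = a' * A + a' * B * e' := by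
        rw [Matrix.neg_mul, Matrix.mul_neg, neg_neg, Matrix.mul_add, Matrix.mul_assoc a' B (E * A),
          k1]
      rw [this]
      noncomm_ring
  rw [hblock] at hmem
  obtain ⟨b, d, hb, hd, hbd⟩ := three hmem hc hcdet
  refine ⟨_, b, c, d, _, ha, hb, hc, hd, he, ?_⟩
  rw [← hbd, ← hblock]
  simp only [← Matrix.mul_assoc]
  rw [Lo_mul_neg, Matrix.one_mul, Matrix.mul_assoc, Lo_neg_mul, Matrix.mul_one]

/-- The first row of the upper right block can be made unimodular. -/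
theorem stage1 {A B C D : Matrix (Fin 2) (Fin 2) R}
    (h : fromBlocks A B C D ∈ symplecticGroup (Fin 2) R) :
    ∃ g : Matrix (Fin 2) (Fin 2) R, gᵀ = g ∧ IsCoprime ((A * g + B) 0 0) ((A * g + B) 0 1) := by
  obtain ⟨-, -, h6⟩ := rel_T h
  have r00 : A 0 0 * D 0 0 + A 0 1 * D 0 1 - (B 0 0 * C 0 0 + B 0 1 * C 0 1) = 1 := by
    have := congrFun (congrFun h6 0) 0
    simpa [Matrix.mul_apply, Fin.sum_univ_two] using this
  obtain ⟨t, u, hu⟩ := sr (B 0 0) (A 0 0 * D 0 0 + A 0 1 * D 0 1 - B 0 1 * C 0 1)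
    ⟨-C 0 0, 1, by linear_combination r00⟩
  refine ⟨!![D 0 0 * t + D 0 1 * C 0 1 * t ^ 2, D 0 1 * t; D 0 1 * t, 0], ?_, ?_⟩
  · ext i j; fin_cases i <;> fin_cases j <;> rfl
  · refine ⟨u.inv, -(C 0 1 * t) * u.inv, ?_⟩
    have hinv : u.inv * u.val = 1 := u.inv_val
    rw [hu] at hinv
    simp only [Matrix.add_apply, Matrix.mul_apply, Fin.sum_univ_two]
    simp
    simp only [Units.inv_eq_val_inv] at hinv
    linear_combination hinv

/-- Then the whole upper right block can be made invertible. -/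
theorem stage2 {A B C D : Matrix (Fin 2) (Fin 2) R}
    (h : fromBlocks A B C D ∈ symplecticGroup (Fin 2) R) (hc : IsCoprime (B 0 0) (B 0 1)) :
    ∃ g : Matrix (Fin 2) (Fin 2) R, gᵀ = g ∧ IsUnit (A * g + B).det := by
  obtain ⟨h4, -, h6⟩ := rel_T h
  obtain ⟨x, y, hxy⟩ := hc
  have s : A 0 0 * B 1 0 + A 0 1 * B 1 1 = B 0 0 * A 1 0 + B 0 1 * A 1 1 := by
    have := congrFun (congrFun h4 0) 1
    simpa [Matrix.mul_apply, Fin.sum_univ_two] using this
  have r01 : A 0 0 * D 1 0 + A 0 1 * D 1 1 - (B 0 0 * C 1 0 + B 0 1 * C 1 1) = 0 := by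
    have := congrFun (congrFun h6 0) 1
    simpa [Matrix.mul_apply, Fin.sum_univ_two] using this
  have r11 : A 1 0 * D 1 0 + A 1 1 * D 1 1 - (B 1 0 * C 1 0 + B 1 1 * C 1 1) = 1 := by
    have := congrFun (congrFun h6 1) 1
    simpa [Matrix.mul_apply, Fin.sum_univ_two] using this
  obtain ⟨t, ht⟩ := sr (B 0 0 * B 1 1 - B 0 1 * B 1 0)
    ((-A 1 0 * y + A 1 1 * x) - (B 1 0 * x + B 1 1 * y) * (-A 0 0 * y + A 0 1 * x))
    ⟨(-A 0 0 * y + A 0 1 * x) * (D 1 0 * x + D 1 1 * y) - (-C 1 0 * y + C 1 1 * x),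
      -D 1 0 * B 0 1 + D 1 1 * B 0 0, by grind⟩
  refine ⟨!![t * y ^ 2, -(t * x * y); -(t * x * y), t * x ^ 2], ?_, ?_⟩
  · ext i j; fin_cases i <;> fin_cases j <;> rfl
  · convert ht using 1
    simp only [det_fin_two, Matrix.add_apply, Matrix.mul_apply, Fin.sum_univ_two]
    simp
    grind

theorem six (f : Matrix (Fin 2 ⊕ Fin 2) (Fin 2 ⊕ Fin 2) R) (hf : f ∈ symplecticGroup (Fin 2) R) :
    ∃ a b c d e g : Matrix (Fin 2) (Fin 2) R, aᵀ = a ∧ bᵀ = b ∧ cᵀ = c ∧ dᵀ = d ∧ eᵀ = e ∧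
      gᵀ = g ∧ f = Lo a * (Up b * Lo c * Up d) * Lo e * Up g := by
  rw [← fromBlocks_toBlocks f] at hf ⊢
  set A := f.toBlocks₁₁
  set B := f.toBlocks₁₂
  set C := f.toBlocks₂₁
  set D := f.toBlocks₂₂
  have mulUp : ∀ (A B C D g : Matrix (Fin 2) (Fin 2) R),
      fromBlocks A B C D * Up g = fromBlocks A (A * g + B) C (C * g + D) := by
    intro A B C D g
    simp [Up, fromBlocks_multiply]
  obtain ⟨g1, hg1, hcop⟩ := stage1 sr hf
  have m1 := Submonoid.mul_mem _ hf (Up_mem hg1)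
  rw [mulUp] at m1
  obtain ⟨g2, hg2, hdet⟩ := stage2 sr m1 hcop
  have hg : (g1 + g2)ᵀ = g1 + g2 := by rw [transpose_add, hg1, hg2]
  have m2 := Submonoid.mul_mem _ hf (Up_mem hg)
  have e : A * g2 + (A * g1 + B) = A * (g1 + g2) + B := by noncomm_ring
  rw [e] at hdet
  have m3 := m2
  rw [mulUp] at m3
  obtain ⟨a, b, c, d, e, ha, hb, hc, hd, he, hp⟩ := five sr m3 hdet
  refine ⟨a, b, c, d, e, -(g1 + g2), ha, hb, hc, hd, he, by rw [transpose_neg, hg], ?_⟩
  rw [← hp, ← mulUp, Matrix.mul_assoc, Up_mul_neg, Matrix.mul_one]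

omit sr in
/-- Over a commutative ring of Bass stable rank one, every element of `Sp₄` is a product
`M₁(G₁) ⋯ M₆(G₆)`. -/
theorem result (R : Type*) [CommRing R]
    (sr : ∀ a b : R, IsCoprime a b → ∃ t : R, IsUnit (a + b * t))
    (f : Matrix (Fin 2 ⊕ Fin 2) (Fin 2 ⊕ Fin 2) R) (hf : f ∈ symplecticGroup (Fin 2) R) :
    ∃ G : Fin 6 → Fin 3 → R, f = (List.ofFn fun k : Fin 6 => M (k.1 + 1) (G k)).prod := by
  obtain ⟨a, b, c, d, e, g, ha, hb, hc, hd, he, hg, h⟩ := six sr f hf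
  obtain ⟨a, rfl⟩ := exists_U ha
  obtain ⟨b, rfl⟩ := exists_U hb
  obtain ⟨c, rfl⟩ := exists_U hc
  obtain ⟨d, rfl⟩ := exists_U hd
  obtain ⟨e, rfl⟩ := exists_U he
  obtain ⟨g, rfl⟩ := exists_U hg
  refine ⟨![a, b, c, d, e, g], ?_⟩
  rw [h]
  simp [List.ofFn_succ, M, Lo, Up, Matrix.mul_assoc]

end Pool.Agent.Results.MP_56563a_an.StableRankOneSix
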